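import Pool.Agent.Lib.helper3.Coins

namespace Pool.Agent.H.MP_77ae5d_pr

open MeasureTheory ProbabilityTheory Set Filter Pool.Agent.Lib.helper3.Coins
open scoped ENNReal symmDiff

variable {ι : Type} (ν : ι → Measure Bool) [∀ i, IsProbabilityMeasure (ν i)]

theorem harris {A B : Set (ι → Bool)} (mA : MeasurableSet A) (mB : MeasurableSet B) (uA : IsUpperSet A)
    (uB : IsUpperSet B) : Measure.infinitePi ν A * Measure.infinitePi ν B ≤ Measure.infinitePi ν (A ∩ B) := by
  classical
  let Q := Measure.infinitePi fun p : ι × Bool => ν p.1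
  let π : (ι → Bool) → (ι × Bool → Bool) → ι → Bool := fun F z i => z (i, F i)
  have hπ : ∀ F, MeasurePreserving (π F) Q (Measure.infinitePi ν) := fun F =>
    ⟨by fun_prop, Measure.map_infinitePi_infinitePi_of_inj (P := fun p : ι × Bool => ν p.1)
      (f := fun i => (i, F i)) fun _ _ h => congrArg Prod.fst h⟩
  have key : ∀ F : Finset ι, Measure.infinitePi ν A * Measure.infinitePi ν B ≤
      Q (π (fun _ => true) ⁻¹' A ∩ π (fun i => decide (i ∈ F)) ⁻¹' B) := fun F => by
    induction F using Finset.induction_on with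
    | empty =>
      have m : ∀ F c, (∀ i, F i = c) → Measurable[cylinderEvents {p : ι × Bool | p.2 = c}] (π F) :=
        fun F c h => @measurable_pi_lambda _ _ _ (cylinderEvents _) _ _ fun i =>
          measurable_cylinderEvent_apply (h i)
      rw [indep_cyl _ (by simp [disjoint_left]) (m _ true (by simp) mA) (m _ false (by simp) mB),
        (hπ _).measure_preimage mA.nullMeasurableSet, (hπ _).measure_preimage mB.nullMeasurableSet]
    | insert i F hi ih =>
      let S : (ι × Bool → Bool) → ι × Bool → Bool := fun z p => z (Equiv.swap (i, true) (i, false) p)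
      have hS : MeasurePreserving S Q Q := ⟨by fun_prop, (Measure.map_infinitePi_infinitePi_of_inj
        (P := fun p : ι × Bool => ν p.1) (Equiv.swap (i, true) (i, false)).injective).trans (by
          congr 1
          ext1 p
          rw [Equiv.swap_apply_def]
          split_ifs with a b
          · rw [a]
          · rw [b]
          · rfl)⟩
      have SS : ∀ z, S (S z) = z := fun z => by simp [S]
      have e : ∀ z, π (fun j => decide (j ∈ F)) z = π (fun j => decide (j ∈ insert i F)) (S z) := fun z => by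
        ext j
        by_cases h : j = i
        · simp [π, S, h, hi]
        · simp [π, S, h, Equiv.swap_apply_def]
      have mono : ∀ (F : ι → Bool) z, F i = true → z (i, false) ≤ z (i, true) → π F (S z) ≤ π F z :=
        fun F z a b j => by
          by_cases h : j = i
          · simpa [π, S, h, a] using b
          · simp [π, S, h, Equiv.swap_apply_def]
      have mono' : ∀ (F : ι → Bool) z, F i = true → z (i, true) ≤ z (i, false) → π F z ≤ π F (S z) :=
        fun F z a b => by simpa [SS] using mono F (S z) a (by simpa [S] using b)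
      refine ih.trans ?_
      set a := π (fun _ => true) ⁻¹' A
      set b := π (fun j => decide (j ∈ insert i F)) ⁻¹' B
      have ma : MeasurableSet a := (hπ _).measurable mA
      have mb : MeasurableSet b := (hπ _).measurable mB
      rw [show π _ ⁻¹' B = S ⁻¹' b from Set.ext fun z => by simp [b, e]]
      have h1 := measure_union_add_inter (μ := Q) (a ∩ S ⁻¹' b) ((hS.measurable ma).inter mb)
      have h2 := measure_union_add_inter (μ := Q) (a ∩ b) (hS.measurable (ma.inter mb))
      rw [show S ⁻¹' a ∩ b = S ⁻¹' (a ∩ S ⁻¹' b) from Set.ext fun z => by simp [SS],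
        hS.measure_preimage (ma.inter (hS.measurable mb)).nullMeasurableSet, ← two_mul] at h1
      rw [hS.measure_preimage (ma.inter mb).nullMeasurableSet, ← two_mul] at h2
      rw [← ENNReal.mul_le_mul_iff_right two_ne_zero ENNReal.ofNat_ne_top, ← h1, ← h2]
      refine add_le_add (measure_mono fun z hz => ?_) (measure_mono fun z hz => ?_)
      · simp only [mem_union, mem_inter_iff, mem_preimage, SS, a, b] at hz ⊢
        rcases le_total (z (i, false)) (z (i, true)) with h | h <;> rcases hz with ⟨x, y⟩ | ⟨x, y⟩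
        · exact .inl ⟨x, uB (mono _ z (by simp) h) y⟩
        · exact .inl ⟨uA (mono _ z rfl h) x, y⟩
        · exact .inr ⟨uA (mono' _ z rfl h) x, y⟩
        · exact .inr ⟨x, uB (mono' _ z (by simp) h) y⟩
      · simp only [mem_inter_iff, mem_preimage, SS] at hz ⊢
        tauto
  refine ENNReal.le_of_forall_pos_le_add fun ε hε _ => ?_
  obtain ⟨C, hC, h⟩ := exists_measure_symmDiff_lt_of_generateFrom_isSetRing (μ := Measure.infinitePi ν)
    isSetRing_measurableCylinders ⟨{univ}, countable_singleton _, singleton_subset_iff.2 (univ_mem_measurableCylinders _),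
      by simp⟩ generateFrom_measurableCylinders.symm mB (ε := ε / 2) (by simpa using hε.ne')
  have mC := (MeasurableSet.of_mem_measurableCylinders hC).symmDiff mB
  obtain ⟨F, D, -, rfl⟩ := (mem_measurableCylinders _).1 hC
  refine (key F).trans ((measure_mono (t := π (fun _ => true) ⁻¹' (A ∩ B) ∪ (π (fun _ => true) ⁻¹'
    (cylinder F D ∆ B) ∪ π (fun i => decide (i ∈ F)) ⁻¹' (cylinder F D ∆ B))) fun z hz => ?_).trans
    ((measure_union_le _ _).trans (add_le_add ((hπ _).measure_preimage (mA.inter mB).nullMeasurableSet).le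
      ((measure_union_le _ _).trans ?_))))
  · have : F.restrict (π (fun _ => true) z) = F.restrict (π (fun i => decide (i ∈ F)) z) := by
      ext i
      simp [π]
    simp only [mem_union, mem_inter_iff, mem_preimage, mem_symmDiff, mem_cylinder, this] at hz ⊢
    tauto
  · rw [(hπ _).measure_preimage mC.nullMeasurableSet, (hπ _).measure_preimage mC.nullMeasurableSet,
      ← ENNReal.add_halves ε]
    exact add_le_add h.le h.le

lemma energy {κ : Type} (μ : Measure (κ → Bool)) [IsProbabilityMeasure μ] (e : κ)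
    (tol : ∀ a A, MeasurableSet[cylinderEvents {e}ᶜ] A → μ (A ∩ {ω | ω e = a}) = 0 → μ A = 0) : ∀ᵐ ω ∂μ,
    0 < μ[{ω | ω e = true}.indicator fun _ => (1 : ℝ) | cylinderEvents {e}ᶜ] ω ∧
      μ[{ω | ω e = true}.indicator fun _ => (1 : ℝ) | cylinderEvents {e}ᶜ] ω < 1 := by
  have h2 : MeasurableSet {ω : κ → Bool | ω e = true} :=
    (measurableSet_singleton true).preimage (measurable_pi_apply e)
  set g := μ[{ω | ω e = true}.indicator fun _ => (1 : ℝ) | cylinderEvents {e}ᶜ]
  have h3 : Measurable[cylinderEvents {e}ᶜ] g := stronglyMeasurable_condExp.measurable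
  have h4 : ∀ A, MeasurableSet[cylinderEvents {e}ᶜ] A →
      ∫ ω in A, g ω ∂μ = μ.real (A ∩ {ω | ω e = true}) := fun A hA => by
    rw [setIntegral_condExp cylinderEvents_le_pi ((integrable_const _).indicator h2) hA,
      integral_indicator h2, Measure.restrict_restrict h2, Set.inter_comm]
    simp
  refine Eventually.and (ae_iff.mpr ?_) (ae_iff.mpr ?_) <;> simp only [not_lt]
  · have hA := h3 (measurableSet_Iic (a := (0 : ℝ)))
    refine tol true _ hA ((measureReal_eq_zero_iff (measure_ne_top _ _)).mp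
      (le_antisymm (h4 _ hA ▸ ?_) measureReal_nonneg))
    exact setIntegral_nonpos (cylinderEvents_le_pi _ hA) fun _ h => h
  · have hA := h3 (measurableSet_Ici (a := (1 : ℝ)))
    refine tol false _ hA ((measureReal_eq_zero_iff (measure_ne_top _ _)).mp
      (le_antisymm ?_ measureReal_nonneg))
    have h5 := setIntegral_ge_of_const_le_real (μ := μ) (cylinderEvents_le_pi _ hA)
      (measure_ne_top _ _) (fun _ h => h) integrable_condExp.integrableOn
    have h6 := measureReal_inter_add_sdiff (μ := μ) (s := g ⁻¹' Set.Ici 1) h2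
    rw [h4 _ hA] at h5
    rw [show _ \ _ = {a | 1 ≤ g a} ∩ {ω | ω e = false} by ext; simp] at h6
    linarith

variable (b : ι → Bool)

def pr (o : ι) : Set (ι → Bool) := {X | X o = b o}

noncomputable def wt : Measure[⊤] ι := @Measure.sum ι ι ⊤ fun o => ν o {b o} • @Measure.dirac ι ⊤ o

lemma prm (o : ι) : MeasurableSet (pr b o) := (measurableSet_singleton _).preimage (measurable_pi_apply o)

lemma prc {S : Set ι} {o : ι} (h : o ∈ S) : MeasurableSet[cylinderEvents S] (pr b o) :=
  measurable_cylinderEvent_apply h (measurableSet_singleton _)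

lemma P1 (o : ι) : Measure.infinitePi ν (pr b o) = ν o {b o} := by
  rw [← Measure.infinitePi_map_eval ν o, Measure.map_apply (measurable_pi_apply o) (measurableSet_singleton _)]
  rfl

lemma wt_eq (T : Set ι) : wt ν b T = ∑' o : T, ν o {b o} := by
  letI : MeasurableSpace ι := ⊤
  rw [wt, Measure.sum_apply _ (by trivial), tsum_subtype T fun o => ν o {b o}]
  refine tsum_congr fun o => ?_
  by_cases h : o ∈ T <;> simp [h]

lemma wt_fin (T : Finset ι) : wt ν b T = ∑ o ∈ T, ν o {b o} := by
  rw [wt_eq, ← Finset.tsum_subtype]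
  rfl

variable [Countable ι]

lemma P2 (T : Set ι) : Measure.infinitePi ν {X | ∃ o ∈ T, ∃ o' ∈ T, o ≠ o' ∧ X ∈ pr b o ∧ X ∈ pr b o'} ≤
    wt ν b T ^ 2 := by
  rw [sq, wt_eq, ← ENNReal.tsum_mul_right]
  simp only [← ENNReal.tsum_mul_left]
  refine (measure_mono (t := ⋃ o : T, ⋃ o' : T, {X | o.1 ≠ o' ∧ X ∈ pr b o ∧ X ∈ pr b o'}) ?_).trans
    ((measure_iUnion_le _).trans (ENNReal.tsum_le_tsum fun o => (measure_iUnion_le _).trans
      (ENNReal.tsum_le_tsum fun o' => ?_)))
  · rintro X ⟨o, h, o', h', k⟩
    exact mem_iUnion₂.2 ⟨⟨o, h⟩, ⟨o', h'⟩, k⟩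
  · by_cases h : o.1 = o'
    · simp [h]
    · rw [← P1, ← P1, ← indep_cyl ν (disjoint_singleton.2 h) (prc b rfl) (prc b rfl)]
      exact measure_mono fun X k => k.2

lemma P3 {T : Set ι} {o : ι} (h : o ∉ T) (hT : wt ν b T ≤ 3 / 4) :
    ν o {b o} / 4 ≤ Measure.infinitePi ν (pr b o ∩ (⋃ o' ∈ T, pr b o')ᶜ) := by
  have m : MeasurableSet[cylinderEvents T] (⋃ o' ∈ T, pr b o') :=
    .biUnion T.to_countable fun _ h => prc b h
  rw [indep_cyl ν (disjoint_singleton_left.2 h) (prc b rfl) m.compl, P1,
    prob_compl_eq_one_sub (cylinderEvents_le_pi _ m), div_eq_mul_inv]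
  refine mul_le_mul_right (le_trans ?_ (tsub_le_tsub_left ((measure_biUnion_le _ T.to_countable _).trans
    (le_trans (by simp [P1, wt_eq]) hT)) 1)) _
  refine ENNReal.le_sub_of_add_le_right (by finiteness) (le_of_eq ?_)
  rw [← one_div, ← ENNReal.add_div, show (1 : ℝ≥0∞) + 3 = 4 by norm_num, ENNReal.div_self] <;> simp

lemma P4 {T : Set ι} (h : wt ν b T ≠ ∞) : ∀ᵐ X ∂Measure.infinitePi ν, {o | o ∈ T ∧ X ∈ pr b o}.Finite :=
  (ae_finite_setOfPred_mem (s := fun o : T => pr b o) (by simpa [P1, wt_eq] using h)).mono fun X h =>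
    (h.image Subtype.val).subset fun o k => ⟨⟨o, k.1⟩, k.2, rfl⟩

omit [Countable ι] in
lemma P5 (T : Finset ι) {q : ℝ} (h0 : q ≤ 1) (h : ∀ o ∈ T, ν o {b o} = .ofReal q) :
    Measure.infinitePi ν {X | ∀ o ∈ T, X ∉ pr b o} ≤ .ofReal (Real.exp (-(T.card * q))) := by
  rw [show {X | ∀ o ∈ T, X ∉ pr b o} = Set.pi T fun o => {b o}ᶜ from rfl,
    Measure.infinitePi_pi _ fun _ _ => .of_discrete, ← mul_neg, Real.exp_nat_mul,
    ENNReal.ofReal_pow (Real.exp_pos _).le]
  refine Finset.prod_le_pow_card _ _ _ fun o ho => ?_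
  rw [prob_compl_eq_one_sub .of_discrete, h o ho, tsub_le_iff_right]
  rcases le_total q 0 with k | k
  · exact le_add_right (ENNReal.one_le_ofReal.2 (Real.one_le_exp (by linarith)))
  · rw [← ENNReal.ofReal_add (Real.exp_pos _).le k]
    exact ENNReal.one_le_ofReal.2 (by linarith [Real.add_one_le_exp (-q)])

end Pool.Agent.H.MP_77ae5d_pr
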