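import Pool.Agent.H.MP_77ae5d_pr.A
import Pool.Agent.Lib.helper3.Zd

namespace Pool.Agent.H.MP_77ae5d_pr

open Set Pool.Agent.Lib.helper3.Coins Pool.Agent.Lib.helper3.Zd

abbrev V := Fin 2 → ℤ
abbrev Γ := G 2 ≃g G 2
abbrev K := Bool × Bool × ℕ
abbrev I := K × Γ

lemma adj {a b : V} : (G 2).Adj a b ↔ |a 0 - b 0| + |a 1 - b 1| = 1 := by simp [G]

@[simp] lemma ua (s : ℤˣ) : |(s : ℤ)| = 1 := by rcases Int.units_eq_one_or s with rfl | rfl <;> simp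

@[simp] lemma uu (s : ℤˣ) (x : ℤ) : s * (s * x) = x := by
  rcases Int.units_eq_one_or s with rfl | rfl <;> simp

def mk (σ : Equiv.Perm (Fin 2)) (s : Fin 2 → ℤˣ) (c : V) : Γ where
  toFun x j := s j * x (σ j) + c j
  invFun y j := s (σ.symm j) * (y (σ.symm j) - c (σ.symm j))
  left_inv x := by
    ext j
    simp [← mul_assoc, ← Units.val_mul]
  right_inv y := by
    ext j
    simp [← mul_assoc, ← Units.val_mul]
  map_rel_iff' {a b} := by
    change ∑ j, |_ + c j - (_ + c j)| = 1 ↔ ∑ j, |a j - b j| = 1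
    simp only [add_sub_add_right_eq_sub, ← mul_sub, abs_mul, ua, one_mul]
    rw [Equiv.sum_comp σ fun j => |a j - b j|]

lemma mka (σ s c) (x : V) (j) : mk σ s c x j = s j * x (σ j) + c j := rfl

lemma aut' (g : Γ) : ∃ σ s c, g = mk σ s c := by
  obtain ⟨σ, s, h, k⟩ := aut g
  choose t ht using fun j => Int.isUnit_iff.2 (h j)
  exact ⟨σ, t, g 0, RelIso.ext fun x => funext fun j => by rw [mka, k, ht]⟩

instance : Countable Γ := Function.Surjective.countable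
  (f := fun p : Equiv.Perm (Fin 2) × (Fin 2 → ℤˣ) × V => mk p.1 p.2.1 p.2.2) fun g => by
    obtain ⟨σ, s, c, rfl⟩ := aut' g
    exact ⟨(σ, s, c), rfl⟩

noncomputable def Rec (a b c d : ℤ) : Finset V := Fintype.piFinset ![Finset.Icc a b, Finset.Icc c d]

lemma mem_Rec {a b c d : ℤ} {x : V} : x ∈ Rec a b c d ↔ (a ≤ x 0 ∧ x 0 ≤ b) ∧ c ≤ x 1 ∧ x 1 ≤ d := by
  simp [Rec, Fin.forall_fin_two]

lemma card_Rec {a b c d : ℤ} (m n : ℕ) (h : b + 1 - a = m) (k : d + 1 - c = n) :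
    (Rec a b c d).card = m * n := by simp [Rec, h, k]

variable (h : ℕ → ℕ)

def Sh : K → V → V → Prop
  | (_, true, _), a, b => a = 0 ∧ b = ![1, 0]
  | (true, false, i), a, b => a 1 = 0 ∧ |a 0| ≤ 8 * 2 ^ i ∧ b 0 = a 0 + 1 ∧ b 1 = 0
  | (false, false, j), a, b => (|a 0| ≤ 8 * h j ∧ 0 ≤ a 1 ∧ a 1 ≤ 2 * h j) ∧
      ¬ (|b 0| ≤ 8 * h j ∧ b 1 ≤ 2 * h j) ∧ 0 ≤ b 1 ∧ (G 2).Adj a b

def WH : K → ℕ × ℕ
  | (_, true, _) => (0, 0)
  | (true, false, i) => (8 * 2 ^ i, 0)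
  | (false, false, j) => (8 * h j, 2 * h j)

variable {h}

lemma supp {k : K} {a b : V} (H : Sh h k a b) : (G 2).Adj a b ∧ ((|a 0| = (WH h k).1 ∧ 0 ≤ a 1 ∧
    a 1 ≤ (WH h k).2) ∨ |a 0| ≤ (WH h k).1 ∧ a 1 = (WH h k).2) := by
  obtain ⟨_ | _, _ | _, j⟩ := k <;> simp only [Sh, WH, adj] at H ⊢
  · simp only [abs_eq_max_neg] at H ⊢
    push_cast
    omega
  · simp [H]
  · simp [H]
  · simp [H]

lemma sup2 (k : K) (r : ℕ) : ∃ Z : Finset V, Z.card ≤ (2 * r + 1) * (2 * (WH h k).1 + 2 * (WH h k).2 +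
    6 * r + 3) ∧ ∀ a b z : V, Sh h k a b → (∀ j, |a j - z j| ≤ r) → z ∈ Z := by
  generalize hw : WH h k = w
  refine ⟨Rec (-w.1 - r) (-w.1 + r) (-r) (w.2 + r) ∪ Rec (w.1 - r) (w.1 + r) (-r) (w.2 + r) ∪
    Rec (-w.1 - r) (w.1 + r) (w.2 - r) (w.2 + r), ((Finset.card_union_le _ _).trans (Nat.add_le_add_right
      (Finset.card_union_le _ _) _)).trans_eq ?_, fun a b z H k => ?_⟩
  · rw [card_Rec (2 * r + 1) (w.2 + 2 * r + 1), card_Rec (2 * r + 1) (w.2 + 2 * r + 1),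
      card_Rec (2 * w.1 + 2 * r + 1) (2 * r + 1)] <;> push_cast <;> ring
  · have := (supp H).2
    simp only [hw, Finset.mem_union, mem_Rec, Fin.forall_fin_two, abs_eq_max_neg] at this k ⊢
    omega

lemma cnt (k : K) (v : V) (r : ℕ) : ∃ F : Finset Γ, F.card ≤ 8 * ((2 * r + 1) * (2 * (WH h k).1 +
    2 * (WH h k).2 + 6 * r + 3)) ∧ ∀ (g : Γ) a b, Sh h k a b → (∀ j, |g a j - v j| ≤ r) → g ∈ F := by
  classical
  obtain ⟨Z, h1, h2⟩ := sup2 (h := h) k r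
  refine ⟨(Finset.univ ×ˢ Finset.univ ×ˢ Z).image fun p : Equiv.Perm (Fin 2) × (Fin 2 → ℤˣ) × V =>
    mk p.1 p.2.1 fun j => v j - p.2.1 j * p.2.2 (p.1 j), Finset.card_image_le.trans ?_, fun g a b H k => ?_⟩
  · simp [Fintype.card_perm]
    omega
  · have e := g.apply_symm_apply v
    generalize g.symm v = z at e
    obtain ⟨σ, s, c, rfl⟩ := aut' g
    subst e
    refine Finset.mem_image.2 ⟨(σ, s, z), by
      simpa using h2 a b z H fun j => by simpa [mka, ← mul_sub, abs_mul] using k (σ.symm j), ?_⟩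
    simp [mka]

def Cn (s : Fin 2 → ℤˣ) (x : V) : Prop := ∀ j j', 0 < s j * x j ∧ s j * x j ≤ 4 * (s j' * x j')

lemma avoid (n : Bool) (j : ℕ) (g : Γ) : ∃ s, ∀ a b, Sh h (false, n, j) a b → ¬ (Cn s (g a) ∧ Cn s (g b)) := by
  have base : ∀ z : V, ∃ s, ∀ a b, Sh h (false, n, j) a b → ¬ (Cn s (a - z) ∧ Cn s (b - z)) := fun z => by
    refine ⟨![if n then if 0 ≤ z 0 then 1 else -1 else if (-8 * h j ≤ z 0 ∧ z 0 ≤ 0) ∨ 8 * h j < z 0 then 1
      else -1, if z 1 ≤ 2 * h j then -1 else 1], fun a b H => ?_⟩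
    cases n <;> simp only [Sh, Cn, Fin.forall_fin_two, abs_eq_max_neg, Matrix.cons_val_zero,
      Matrix.cons_val_one, Pi.sub_apply, Bool.false_eq_true, if_false, if_true] at H ⊢ <;>
      split_ifs <;> simp only [Units.val_one, Units.val_neg, H, Pi.zero_apply] <;> omega
  have e := g.apply_symm_apply 0
  obtain ⟨t, ht⟩ := base (g.symm 0)
  generalize g.symm 0 = z at e ht
  obtain ⟨σ, s, c, rfl⟩ := aut' g
  have k : ∀ x, Cn (fun j => t (σ j) * s j) (mk σ s c x) → Cn t (x - z) := fun x H i i' => by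
    have := H (σ.symm i) (σ.symm i')
    simpa [mka, eq_neg_of_add_eq_zero_right (congrFun e _), ← sub_eq_add_neg, ← mul_sub, mul_assoc] using this
  exact ⟨_, fun a b H ⟨x, y⟩ => ht a b H ⟨k _ x, k _ y⟩⟩

variable (h)

def cov (o : I) (e : Sym2 V) : Prop := ∃ a b, Sh h o.1 a b ∧ e = s(o.2 a, o.2 b)

def Op (X : I → Bool) (e : Sym2 V) : Prop := ∃ o : I, o.1.1 = true ∧ X o = true ∧ cov h o e ∧
  ∀ w : I, w.1.1 = false → X w = false → cov h w e → w.1.2.2 < o.1.2.2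

open Classical in
noncomputable def F (X : I → Bool) (e : (G 2).edgeSet) : Bool := decide (Op h X e.1)

lemma Fe {X : I → Bool} {e : (G 2).edgeSet} : F h X e = true ↔ Op h X e.1 := by simp [F]

def Af (i : ℕ) (r : ℕ) : Set I :=
  {o | o.1.1 = false ∧ i ≤ o.1.2.2 ∧ ∃ a b, Sh h o.1 a b ∧ ∀ j, |o.2 a j - (0 : V) j| ≤ r}

def HW (X : I → Bool) (i : ℕ) (t : Fin 2) (Y : ℤ) : Prop := ∃ (g : Γ) (x : ℤ),
  X ((true, false, i), g) = true ∧ 0 ≤ x ∧ x < 2 ^ i ∧ ∀ a, g a t = a 0 + x ∧ g a t.rev = a 1 + Y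

def pt (t : Fin 2) (u Y : ℤ) : V := fun j => if j = t then u else Y

variable {h} {X : I → Bool}

lemma line {i l : ℕ} {t : Fin 2} {Y : ℤ} (H : HW X l t Y) (hl : i ≤ l) {Q : V → Prop}
    (hQ : ∀ w ∈ Af h i (4 * 2 ^ i), X w = false → ∀ a b, Sh h w.1 a b → ¬ (Q (w.2 a) ∧ Q (w.2 b)))
    (hY : |Y| ≤ 4 * 2 ^ i) {u v : ℤ} (hu : |u| ≤ 4 * 2 ^ i) (hv : |v| ≤ 4 * 2 ^ i)
    (hq : ∀ x, min u v ≤ x → x ≤ max u v → Q (pt t x Y)) :
    (O (G 2) (F h X)).Reachable (pt t u Y) (pt t v Y) := by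
  wlog k : u ≤ v generalizing u v
  · exact (this hv hu (by simpa [min_comm, max_comm] using hq) (le_of_not_ge k)).symm
  rw [min_eq_left k, max_eq_right k] at hq
  induction v, k using Int.leInduction with
  | base => rfl
  | succ v k ih =>
    obtain ⟨g, x, g1, g2, g3, g4⟩ := H
    have p : (2 : ℤ) ^ i ≤ 2 ^ l := pow_le_pow_right₀ one_le_two hl
    have m : ∀ y, u ≤ y → y ≤ v + 1 → ∀ j, |pt t y Y j - (0 : V) j| ≤ (4 * 2 ^ i : ℕ) := fun y a b j => by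
      simp only [pt, abs_le] at hu hv hY ⊢
      split_ifs <;> simp <;> omega
    have e : ∀ y, g ![y - x, 0] = pt t y Y := fun y => by
      have := g4 ![y - x, 0]
      ext j
      fin_cases t <;> fin_cases j <;> simp_all [pt]
    refine (ih (by rw [abs_le] at *; omega) fun x a b => hq x a (by omega)).trans (SimpleGraph.Adj.reachable
      ((O_adj _).2 ⟨by fin_cases t <;> simp [adj, pt], (Fe h).2 ⟨(_, g), rfl, g1, ⟨![v - x, 0],
        ![v + 1 - x, 0], ⟨rfl, ?_, by simp; ring, rfl⟩, by rw [e, e]⟩, fun w w1 w2 ⟨a, b, w3, w4⟩ => ?_⟩⟩))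
    · simp only [abs_le, Matrix.cons_val_zero] at *
      omega
    by_contra c
    rcases Sym2.eq_iff.1 w4 with ⟨c1, c2⟩ | ⟨c1, c2⟩
    · exact hQ w ⟨w1, hl.trans (not_lt.1 c), a, b, w3, c1 ▸ m v k (by omega)⟩ w2 a b w3
        ⟨c1 ▸ hq v k (by omega), c2 ▸ hq _ (by omega) le_rfl⟩
    · exact hQ w ⟨w1, hl.trans (not_lt.1 c), a, b, w3, c2 ▸ m _ (by omega) le_rfl⟩ w2 a b w3
        ⟨c2 ▸ hq _ (by omega) le_rfl, c1 ▸ hq v k (by omega)⟩

theorem perc {n : ℕ} (hH : ∀ i ≥ n, ∀ t (τ : ℤˣ), ∃ y, 2 ^ i < y ∧ y ≤ 2 * 2 ^ i ∧ HW X i t (τ * y))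
    (hU : ∀ i ≥ n, ∀ o ∈ Af h i (8 * 2 ^ i), ∀ o' ∈ Af h i (8 * 2 ^ i), X o = false → X o' = false → o = o') :
    ∃ c : (O (G 2) (F h X)).ConnectedComponent, c.supp.Infinite := by
  choose! Y y1 y2 y3 using hH
  let P : ℕ → (Fin 2 → ℤˣ) → V := fun i s j => s j * Y i j.rev (s j)
  let N : ℕ → (V → Prop) → Prop := fun i Q => ∀ w ∈ Af h i (4 * 2 ^ i), X w = false →
    ∀ a b, Sh h w.1 a b → ¬ (Q (w.2 a) ∧ Q (w.2 b))
  have ab : ∀ (τ : ℤˣ) (y : ℤ), |τ * y| = |y| := fun τ y => by simp [abs_mul]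
  have st : ∀ i ≥ n, ∀ s s' Q, N i Q → (Q = fun _ => True) ∨ (s' = s ∧ Q = Cn s) →
      (O (G 2) (F h X)).Reachable (P i s) (P (i + 1) s') := fun i hi s s' Q hQ k => by
    have a := fun t τ => And.intro (y1 i hi t τ) (y2 i hi t τ)
    have b := fun t τ => And.intro (y1 (i + 1) (by omega) t τ) (y2 (i + 1) (by omega) t τ)
    have p : (0 : ℤ) < 2 ^ i := by positivity
    rw [pow_succ] at b
    have a0 := a 0 (s 1)
    have a1 := a 1 (s 0)
    have b0 := b 0 (s' 1)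
    have b1 := b 1 (s' 0)
    have l1 := line (y3 i hi 0 (s 1)) le_rfl hQ (u := s 0 * Y i 1 (s 0)) (v := s' 0 * Y (i + 1) 1 (s' 0))
      (by rw [ab, abs_le]; omega) (by rw [ab, abs_le]; omega) (by rw [ab, abs_le]; omega) fun x c d => by
        obtain rfl | ⟨rfl, rfl⟩ := k
        · trivial
        rcases Int.units_eq_one_or (s' 0) with e | e <;> rcases Int.units_eq_one_or (s' 1) with f | f <;>
          simp [Cn, pt, Fin.forall_fin_two, e, f] at * <;> omega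
    have l2 := line (y3 (i + 1) (by omega) 1 (s' 0)) i.le_succ hQ (u := s 1 * Y i 0 (s 1))
      (v := s' 1 * Y (i + 1) 0 (s' 1))
      (by rw [ab, abs_le]; omega) (by rw [ab, abs_le]; omega) (by rw [ab, abs_le]; omega) fun x c d => by
        obtain rfl | ⟨rfl, rfl⟩ := k
        · trivial
        rcases Int.units_eq_one_or (s' 0) with e | e <;> rcases Int.units_eq_one_or (s' 1) with f | f <;>
          simp [Cn, pt, Fin.forall_fin_two, e, f] at * <;> omega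
    have e : ∀ u v, pt 1 u v = pt 0 v u := fun u v => funext (Fin.forall_fin_two.2 ⟨rfl, rfl⟩)
    have f : ∀ i s, P i s = pt 0 (s 0 * Y i 1 (s 0)) (s 1 * Y i 0 (s 1)) := fun i s =>
      funext (Fin.forall_fin_two.2 ⟨rfl, rfl⟩)
    rw [e, e] at l2
    rw [f, f]
    exact l1.trans l2
  have sub : ∀ i l, i ≤ l → l ≤ i + 1 → Af h l (4 * 2 ^ l) ⊆ Af h i (8 * 2 ^ i) :=
    fun i l a b o ⟨c, d, x, y, e, f⟩ => ⟨c, a.trans d, x, y, e, fun j => (f j).trans (by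
      have := Nat.pow_le_pow_right two_pos b
      rw [pow_succ] at this
      exact_mod_cast by omega)⟩
  have ex : ∀ i ≥ n, ∃ s, N i (Cn s) := fun i hi => by
    by_cases k : ∃ w ∈ Af h i (4 * 2 ^ i), X w = false
    · obtain ⟨⟨⟨_, m, j⟩, g⟩, ⟨rfl, w1⟩, w2⟩ := k
      obtain ⟨s, hs⟩ := avoid (h := h) m j g
      exact ⟨s, fun w a b => hU i hi _ (sub i i le_rfl i.le_succ ⟨rfl, w1⟩) _ (sub i i le_rfl i.le_succ a)
        w2 b ▸ hs⟩
    · exact ⟨1, fun w a b => (k ⟨w, a, b⟩).elim⟩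
  obtain ⟨s0, h0⟩ := ex n le_rfl
  have main : ∀ i, n ≤ i → ∃ s, (O (G 2) (F h X)).Reachable (P n s0) (P i s) ∧ N i (Cn s) := fun i hi => by
    induction i, hi using Nat.le_induction with
    | base => exact ⟨s0, .rfl, h0⟩
    | succ i hi ih =>
      obtain ⟨s, a, b⟩ := ih
      by_cases k : ∃ w ∈ Af h i (4 * 2 ^ i), X w = false
      · obtain ⟨w, w1, w2⟩ := k
        exact ⟨s, a.trans (st i hi s s _ b (.inr ⟨rfl, rfl⟩)), fun w' c d => hU i hi _ (sub i i le_rfl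
          i.le_succ w1) _ (sub i _ i.le_succ le_rfl c) w2 d ▸ b w w1 w2⟩
      · obtain ⟨s', c⟩ := ex (i + 1) (by omega)
        exact ⟨s', a.trans (st i hi s s' _ (fun w a b => (k ⟨w, a, b⟩).elim) (.inl rfl)), c⟩
  refine ⟨(O (G 2) (F h X)).connectedComponentMk (P n s0), .of_image (fun x => |x 0|)
    (infinite_of_not_bddAbove (not_bddAbove_iff.2 fun M => ?_))⟩
  obtain ⟨s, a, -⟩ := main (max n M.toNat) (le_max_left _ _)
  refine ⟨_, ⟨_, SimpleGraph.ConnectedComponent.sound a.symm, rfl⟩, ?_⟩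
  have := y1 _ (le_max_left n M.toNat) 1 (s 0)
  have b : ((max n M.toNat : ℕ) : ℤ) < 2 ^ max n M.toNat := by exact_mod_cast Nat.lt_two_pow_self
  change M < |s 0 * Y _ 1 (s 0)|
  rw [ab, lt_abs]
  omega

def Bd (h : ℕ → ℕ) (o : I) : Set I := {o' | o'.1.1 = true ∧ o.1.2.2 < o'.1.2.2 ∧ ∃ e, cov h o e ∧ cov h o' e}

def OS (S : Set V) (ω : (G 2).edgeSet → Bool) : SimpleGraph V :=
  .fromEdgeSet {e | ∃ k : e ∈ (G 2).edgeSet, ω ⟨e, k⟩ = true ∧ ∀ v ∈ e, v ∈ S}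

theorem trap (H : ∀ M : ℕ, ∃ j c, M ≤ h j ∧ c ∈ Rec (1 - h j) 0 (1 - h j) 0 ∧
    X ((false, false, j), mk 1 1 c) = false ∧ ∀ o ∈ Bd h ((false, false, j), mk 1 1 c), X o ≠ true) :
    ¬ ∃ c : (OS {v | 0 ≤ v 1} (F h X)).ConnectedComponent, c.supp.Infinite := by
  rintro ⟨C, hC⟩
  obtain ⟨x, hx, x', hx', ne⟩ := hC.nontrivial
  have x0 : 0 ≤ x 1 := by
    obtain ⟨_ | ⟨⟨⟨_, _, a⟩, _⟩, _⟩⟩ := SimpleGraph.ConnectedComponent.exact (hx.trans hx'.symm)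
    · exact (ne rfl).elim
    · exact a x (by simp)
  obtain ⟨j, c, a, b, d, e⟩ := H (|x 0| + x 1).toNat
  refine hC ((Rec (c 0 - 8 * h j) (c 0 + 8 * h j) (c 1) (c 1 + 2 * h j)).finite_toSet.subset fun y hy => ?_)
  obtain ⟨w⟩ := SimpleGraph.ConnectedComponent.exact (hx.trans hy.symm)
  have : x ∈ Rec (c 0 - 8 * h j) (c 0 + 8 * h j) (c 1) (c 1 + 2 * h j) := by
    simp only [mem_Rec, abs_eq_max_neg] at a b ⊢
    omega
  clear hx hy x0 a ne
  induction w with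
  | nil => exact this
  | @cons u v _ k w ih =>
    obtain ⟨⟨k1, k2, k3⟩, -⟩ := k
    obtain ⟨o, o1, o2, o3, o4⟩ := (Fe h).1 k2
    have k4 : 0 ≤ v 1 := k3 v (by simp)
    refine ih (by_contra fun k => ?_)
    have : cov h ((false, false, j), mk 1 1 c) s(u, v) := ⟨u - c, v - c, by
      have k1 := adj.1 k1
      simp only [Sh, adj, mem_Rec, Pi.sub_apply, abs_eq_max_neg] at *
      omega, by congr <;> ext <;> simp [mka]⟩
    exact e o ⟨o1, o4 _ rfl d this, _, this, o3⟩ o2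

end Pool.Agent.H.MP_77ae5d_pr
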