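import Pool.Agent.H.MP_77ae5d_pr.B

namespace Pool.Agent.H.MP_77ae5d_pr

open MeasureTheory ProbabilityTheory Set Filter Pool.Agent.Lib.helper3.Coins Pool.Agent.Lib.helper3.Zd
open scoped ENNReal

noncomputable def D (i : ℕ) : ℝ := ((i : ℝ) + 1) ^ ((8 : ℕ) : ℝ)⁻¹

lemma D8 (i : ℕ) : D i ^ 8 = i + 1 := Real.rpow_inv_natCast_pow (by positivity) (by norm_num)

lemma D1 (i : ℕ) : 1 ≤ D i := Real.one_le_rpow (by simp) (by positivity)

lemma D2 (i : ℕ) {n : ℕ} (h : n ≤ 8) : D i ^ n ≤ 2 ^ i :=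
  (pow_le_pow_right₀ (D1 i) h).trans ((D8 i).trans_le (by exact_mod_cast Nat.lt_two_pow_self))

lemma D3 (i l : ℕ) : D i ≤ D (i + l) ∧ D (i + l) ≤ (1 + l) * D i := by
  have a := D1 i
  have b := D1 (i + l)
  have c : (0 : ℝ) ≤ l := l.cast_nonneg
  refine ⟨le_of_pow_le_pow_left₀ (n := 8) (by simp) (by positivity) ?_,
    le_of_pow_le_pow_left₀ (n := 8) (by simp) (by positivity) ?_⟩
  · simpa [D8] using c
  · rw [mul_pow, D8, D8]
    push_cast
    nlinarith [le_self_pow₀ (show (1 : ℝ) ≤ 1 + l by simpa) (n := 8) (by simp), i.cast_nonneg (α := ℝ)]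

lemma D4 : Summable fun i => 1 / D i ^ 12 := by
  refine ((summable_nat_add_iff 1).2 (Real.summable_one_div_nat_rpow.2
    (show (1 : ℝ) < 3 / 2 by norm_num))).congr fun i => ?_
  rw [D, ← Real.rpow_natCast, ← Real.rpow_mul (by positivity)]
  norm_num

noncomputable def hh (j : ℕ) : ℕ := ⌊2 ^ j / (10 ^ 6 * D j)⌋₊ + 1

lemma hh1 (j : ℕ) : (1 : ℝ) ≤ hh j ∧ (2 : ℝ) ^ j ≤ 10 ^ 6 * D j * hh j := by
  have := D1 j
  refine ⟨by simp [hh], (div_le_iff₀' (by positivity)).1 ?_⟩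
  simpa [hh] using (Nat.lt_floor_add_one _).le

lemma hh2 (M : ℕ) : ∀ᶠ j in atTop, M ≤ hh j ∧ 10 ^ 6 * D j * hh j ≤ 2 * 2 ^ j := by
  filter_upwards [(tendsto_pow_const_div_const_pow_of_one_lt 1 one_lt_two).eventually_le_const
    (show 0 < 1 / (2 * 10 ^ 6 * ((M : ℝ) + 1)) by positivity), eventually_ge_atTop 1] with j a b
  have c := D1 j
  have d : D j ≤ 2 * j := (le_self_pow₀ c (n := 8) (by simp)).trans ((D8 j).trans_le (by
    linarith [(Nat.one_le_cast (α := ℝ)).2 b]))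
  rw [div_le_div_iff₀ (by positivity) (by positivity), pow_one, one_mul] at a
  have e : 10 ^ 6 * D j * (M + 1) ≤ 2 ^ j := by nlinarith [M.cast_nonneg (α := ℝ)]
  have f := Nat.floor_le (show 0 ≤ 2 ^ j / (10 ^ 6 * D j) by positivity)
  rw [le_div_iff₀ (by positivity)] at f
  refine ⟨Nat.le_succ_of_le (Nat.le_floor ((le_div_iff₀ (by positivity)).2 (by nlinarith))), ?_⟩
  rw [hh]
  push_cast
  nlinarith [M.cast_nonneg (α := ℝ)]

noncomputable def q : K → ℝ
  | (_, true, j) => 1 / 8 ^ j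
  | (true, false, i) => D i / 4 ^ i
  | (false, false, j) => 1 / (4 * (j + 1) * (hh j : ℝ) ^ 2)

lemma q0 (k : K) : 0 < q k ∧ q k ≤ 1 := by
  obtain ⟨_ | _, _ | _, j⟩ := k <;> simp only [q]
  · have := (hh1 j).1
    exact ⟨by positivity, (div_le_one (by positivity)).2 (by nlinarith [j.cast_nonneg (α := ℝ)])⟩
  · exact ⟨by positivity, (div_le_one (by positivity)).2 (one_le_pow₀ (by norm_num))⟩
  · have := D1 j
    exact ⟨by positivity, (div_le_one (by positivity)).2 (((pow_one _).ge.trans (D2 j (by simp))).trans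
      (pow_le_pow_left₀ (by simp) (by norm_num) _))⟩
  · exact ⟨by positivity, (div_le_one (by positivity)).2 (one_le_pow₀ (by norm_num))⟩

noncomputable def ν (o : I) : Measure Bool := bernoulliMeasure o.1.1 (!o.1.1) ⟨q o.1, (q0 _).1.le, (q0 _).2⟩

instance (o : I) : IsProbabilityMeasure (ν o) := by
  unfold ν
  infer_instance

abbrev bb (o : I) : Bool := o.1.1

lemma νa (o : I) : ν o {bb o} = .ofReal (q o.1) := by
  refine (bernoulliMeasure_apply_of_mem_of_notMem _ .of_discrete (mem_singleton _) (by simp)).trans ?_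
  rw [ENNReal.ofReal]
  congr
  ext
  simp [(q0 _).1.le]

def S (k : K) (v : V) (r : ℕ) : Set I :=
  {o | o.1 = k ∧ ∃ a b, Sh hh k a b ∧ ∀ j, |o.2 a j - v j| ≤ r}

lemma w2 (t : Bool) (i : ℕ) (v : V) (r : ℕ) {f : ℕ → ℝ} {s : ℝ} (hf : HasSum f s) (h : ∀ n l, q (t, n, i + l) *
    (8 * ((2 * r + 1) * (2 * (WH hh (t, n, i + l)).1 + 2 * (WH hh (t, n, i + l)).2 + 6 * r + 3))) ≤ f l) :
    wt ν bb (⋃ n, ⋃ l, S (t, n, i + l) v r) ≤ .ofReal (2 * s) := by
  classical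
  have f0 : ∀ l, 0 ≤ f l := fun l => le_trans (mul_nonneg (q0 _).1.le (by positivity)) (h true l)
  have : ∀ n, wt ν bb (⋃ l, S (t, n, i + l) v r) ≤ .ofReal s := fun n => by
    rw [← hf.tsum_eq, ENNReal.ofReal_tsum_of_nonneg f0 hf.summable]
    refine (measure_iUnion_le _).trans (ENNReal.tsum_le_tsum fun l => ?_)
    obtain ⟨T, a, b⟩ := cnt (h := hh) (t, n, i + l) v r
    refine (measure_mono (t := (T.image (Prod.mk (t, n, i + l)) : Finset I)) ?_).trans ((wt_fin _ _ _).trans_le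
      ((Finset.sum_le_card_nsmul _ _ (.ofReal (q (t, n, i + l))) fun o ho => ?_).trans ?_))
    · rintro ⟨_, g⟩ ⟨rfl, x, y, c, d⟩
      simpa using b g x y c d
    · obtain ⟨g, -, rfl⟩ := Finset.mem_image.1 ho
      exact (νa _).le
    · rw [nsmul_eq_mul, ← ENNReal.ofReal_natCast, ← ENNReal.ofReal_mul (by simp), mul_comm]
      exact ENNReal.ofReal_le_ofReal (le_trans (mul_le_mul_of_nonneg_left
        (by exact_mod_cast Finset.card_image_le.trans a) (q0 _).1.le) (h n l))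
  refine (measure_iUnion_le _).trans ?_
  rw [tsum_fintype, Fintype.sum_bool, two_mul, ENNReal.ofReal_add (hf.nonneg f0) (hf.nonneg f0)]
  exact add_le_add (this _) (this _)

lemma wH (i : ℕ) (v : V) : wt ν bb (⋃ n, ⋃ l, S (true, n, i + l) v 1) ≤ .ofReal (4800 * D i / 2 ^ i) := by
  refine (w2 _ _ _ _ ((hasSum_geometric_two.add (hasSum_coe_mul_geometric_of_norm_lt_one (r := (1 / 2 : ℝ))
    (by norm_num))).mul_left (600 * D i / 2 ^ i)) fun n l => ?_).trans_eq (by congr 1; ring)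
  have a := D1 i
  have b := (D3 i l).2
  have c : (1 : ℝ) ≤ 2 ^ (i + l) := one_le_pow₀ one_le_two
  have d : (0 : ℝ) ≤ l := l.cast_nonneg
  rw [show 600 * D i / 2 ^ i * ((1 / 2) ^ l + l * (1 / 2) ^ l) = 600 * ((1 + l) * D i) / 2 ^ (i + l) by
    rw [pow_add, one_div, inv_pow]; field_simp]
  cases n <;> simp only [q, WH] <;> push_cast
  · rw [show (4 : ℝ) = 2 * 2 by norm_num, mul_pow]
    generalize (2 : ℝ) ^ (i + l) = x at *
    field_simp
    nlinarith [mul_le_mul_of_nonneg_right b (zero_le_one.trans c), D1 (i + l)]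
  · rw [show (8 : ℝ) = 2 * (2 * 2) by norm_num, mul_pow, mul_pow]
    generalize (2 : ℝ) ^ (i + l) = x at *
    field_simp
    nlinarith [mul_le_mul (one_le_pow₀ c (n := 2)) (show 1 ≤ (1 + l) * D i by nlinarith) zero_le_one
      (by positivity)]

lemma wW (i : ℕ) (v : V) :
    wt ν bb (⋃ n, ⋃ l, S (false, n, i + l) v (8 * 2 ^ i)) ≤ .ofReal (4 * 10 ^ 16 / D i ^ 6) := by
  refine (w2 _ _ _ _ (hasSum_geometric_two.mul_left (10 ^ 16 / D i ^ 6)) fun n l => ?_).trans_eq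
    (by congr 1; ring)
  have a := D1 i
  have c : (1 : ℝ) ≤ 2 ^ i := one_le_pow₀ one_le_two
  have d : (1 : ℝ) ≤ 2 ^ l := one_le_pow₀ one_le_two
  rw [one_div, inv_pow]
  cases n <;> simp only [q, WH]
  · obtain ⟨e, f⟩ := hh1 (i + l)
    have g := pow_le_pow_left₀ (by positivity) (D3 i l).1 6
    have k := D1 (i + l)
    rw [← D8, pow_add] at *
    push_cast
    generalize D (i + l) = y, (hh (i + l) : ℝ) = h, (2 : ℝ) ^ i = A, (2 : ℝ) ^ l = B at *
    have m : A ≤ 10 ^ 6 * y * h := by nlinarith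
    have u : (2 * (8 * A) + 1) * B ≤ 17 * 10 ^ 6 * y * h := by nlinarith
    have w : 2 * (8 * h) + 2 * (2 * h) + 6 * (8 * A) + 3 ≤ 71 * 10 ^ 6 * y * h := by nlinarith
    have := mul_le_mul (mul_le_mul u w (by positivity) (by positivity)) g (by positivity) (by positivity)
    field_simp
    nlinarith [show 0 ≤ y ^ 8 * h ^ 2 by positivity]
  · have e := D2 i (n := 6) (by simp)
    rw [show (8 : ℝ) = 2 ^ 3 by norm_num, ← pow_mul, mul_comm 3, pow_mul, pow_add]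
    push_cast
    generalize (2 : ℝ) ^ i = A, (2 : ℝ) ^ l = B at *
    have := mul_le_mul (mul_le_mul (show 2 * (8 * A) + 1 ≤ 17 * A by linarith) (show 6 * (8 * A) + 3 ≤ 51 * A by
      linarith) (by positivity) (by positivity)) e (by positivity) (by positivity)
    field_simp
    nlinarith [mul_le_mul_of_nonneg_left (one_le_pow₀ d (n := 2)) (show 0 ≤ A ^ 3 by positivity),
      show 0 ≤ A ^ 3 by positivity]

lemma memS {o : I} {i r : ℕ} {v a b : V} (hi : i ≤ o.1.2.2) (H : Sh hh o.1 a b) (k : ∀ j, |o.2 a j - v j| ≤ r) :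
    o ∈ ⋃ n, ⋃ l, S (o.1.1, n, i + l) v r := by
  obtain ⟨l, hl⟩ := Nat.exists_eq_add_of_le hi
  exact mem_iUnion₂.2 ⟨o.1.2.1, l, by rw [← hl], a, b, by rwa [← hl], k⟩

lemma near {o : I} {x y : V} (e : (G 2).Adj x y) (H : cov hh o s(x, y)) :
    ∃ a b, Sh hh o.1 a b ∧ ∀ j, |o.2 a j - x j| ≤ (1 : ℕ) := by
  obtain ⟨a, b, c, d⟩ := H
  refine ⟨a, b, c, ?_⟩
  rcases Sym2.eq_iff.1 d with ⟨rfl, -⟩ | ⟨-, rfl⟩
  · simp
  · simp only [adj, Fin.forall_fin_two, abs_eq_max_neg] at *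
    omega

lemma wB : ∀ᶠ j in atTop, ∀ g, wt ν bb (Bd hh ((false, false, j), g)) ≤ 1 / 2 := by
  filter_upwards [hh2 0] with j ⟨_, hj⟩ g
  obtain ⟨Z, a, b⟩ := sup2 (h := hh) (false, false, j) 0
  refine (measure_mono (t := ⋃ z ∈ Z, ⋃ n, ⋃ l, S (true, n, j + l) (g z) 1) ?_).trans
    ((measure_biUnion_finset_le _ _).trans ((Finset.sum_le_card_nsmul _ _ _ fun z _ => wH j _).trans ?_))
  · rintro o ⟨o1, o2, _, ⟨x, y, c, rfl⟩, d⟩
    obtain ⟨u, v, e, f⟩ := near (g.map_rel_iff.2 (supp c).1) d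
    exact mem_biUnion (b x y x c (by simp)) (o1 ▸ memS o2.le e f)
  · rw [nsmul_eq_mul, ← ENNReal.ofReal_natCast, ← ENNReal.ofReal_mul (by simp), ← ENNReal.ofReal_one,
      ← ENNReal.ofReal_ofNat, ← ENNReal.ofReal_div_of_pos two_pos]
    refine ENNReal.ofReal_le_ofReal ?_
    have c : (Z.card : ℝ) ≤ 23 * hh j := by
      simp only [WH] at a
      exact_mod_cast a.trans (by rw [hh]; omega)
    have := D1 j
    field_simp
    nlinarith [mul_le_mul_of_nonneg_right c (zero_le_one.trans this), show (0 : ℝ) < 2 ^ j by positivity]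

end Pool.Agent.H.MP_77ae5d_pr
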