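import Pool.Agent.H.MP_77ae5d_pr.C

namespace Pool.Agent.H.MP_77ae5d_pr

open MeasureTheory ProbabilityTheory Set Filter Pool.Agent.Lib.helper3.Coins Pool.Agent.Lib.helper3.Zd
open scoped ENNReal

noncomputable abbrev P : Measure (I → Bool) := Measure.infinitePi ν

lemma cm {T : Set I} (o : I) (c : Bool) (p : Prop) (h : p → o ∈ T) :
    Measurable[cylinderEvents T] fun X : I → Bool => X o = c ∧ p := by
  by_cases k : p
  · simpa [k] using (@measurableSet_setOfPred _ (cylinderEvents T) _).1 (measurable_cylinderEvent_apply (X := fun _ => Bool) (h k)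
      (measurableSet_singleton c))
  · simp [k]

lemma Fm {T : Set I} (e : (G 2).edgeSet) (h : ∀ o, cov hh o e → o ∈ T) :
    Measurable[cylinderEvents T] fun X => F hh X e := by
  letI : MeasurableSpace (I → Bool) := cylinderEvents T
  refine measurable_to_bool (measurableSet_setOfPred.2 ?_)
  simp only [mem_singleton_iff, Fe, Op, ← and_assoc (c := ∀ _, _), ← and_imp (b := cov _ _ _)]
  exact .exists fun o => (measurable_const.and (cm o _ _ (h o))).and (.forall fun w =>
    measurable_const.imp ((cm w _ _ (h w)).imp measurable_const))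

lemma Fm' : Measurable (F hh) :=
  measurable_pi_lambda _ fun e => (Fm (T := univ) e fun _ _ => trivial).mono cylinderEvents_le_pi le_rfl

noncomputable def μ : Measure ((G 2).edgeSet → Bool) := P.map (F hh)

instance μp : IsProbabilityMeasure μ := Measure.isProbabilityMeasure_map Fm'.aemeasurable

theorem inv (φ : Γ) : μ.map (fun ω e => ω (φ.mapEdgeSet e)) = μ := by
  let L : I ≃ I := (Equiv.refl K).prodCongr (Equiv.mulLeft φ)
  have h1 : P.map (fun X o => X (L o)) = P := Measure.map_infinitePi_infinitePi_of_inj L.injective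
  rw [μ, Measure.map_map (by fun_prop) Fm']
  conv_rhs => rw [← h1, Measure.map_map Fm' (by fun_prop)]
  congr 1
  ext X e
  have c : ∀ o, cov hh (L o) (φ.mapEdgeSet e) ↔ cov hh o e := fun o => exists₂_congr fun a b =>
    and_congr_right fun _ => (Sym2.map.injective φ.injective).eq_iff (a := e.1) (b := s(o.2 a, o.2 b))
  rw [Bool.eq_iff_iff, Function.comp, Function.comp, Fe, Fe, Op, Op, ← L.exists_congr_right]
  refine exists_congr fun o => ?_
  rw [← L.forall_congr_right]
  simp only [c]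
  rfl

theorem fkg {A B : Set ((G 2).edgeSet → Bool)} (mA : MeasurableSet A) (mB : MeasurableSet B)
    (uA : IsUpperSet A) (uB : IsUpperSet B) : μ A * μ B ≤ μ (A ∩ B) := by
  have m : Monotone (F hh) := fun X Y h e => Bool.le_iff_imp.2 fun k => by
    obtain ⟨o, a, b, c, d⟩ := (Fe _).1 k
    exact (Fe _).2 ⟨o, a, Bool.le_iff_imp.1 (h o) b, c, fun w x y => d w x (le_bot_iff.1 ((h w).trans_eq y))⟩
  simp only [μ, Measure.map_apply Fm' mA, Measure.map_apply Fm' mB, Measure.map_apply Fm' (mA.inter mB)]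
  exact harris ν (Fm' mA) (Fm' mB) (uA.preimage m) (uB.preimage m)

theorem tol (e : (G 2).edgeSet) (c : Bool) (A : Set ((G 2).edgeSet → Bool))
    (hA : MeasurableSet[cylinderEvents {e}ᶜ] A) (h : μ (A ∩ {ω | ω e = c}) = 0) : μ A = 0 := by
  have mA := cylinderEvents_le_pi _ hA
  rw [μ, Measure.map_apply Fm' (s := _ ∩ {ω | ω e = c}) (mA.inter ((measurableSet_singleton c).preimage
    (measurable_pi_apply e)))] at h
  rw [μ, Measure.map_apply Fm' mA]
  obtain ⟨⟨x, y⟩, he⟩ := e
  obtain ⟨g, rfl, rfl⟩ : ∃ g : Γ, x = g 0 ∧ y = g ![1, 0] := by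
    obtain ⟨i, s, hs, rfl⟩ := (adj_iff (x := x) (y := y)).1 he
    obtain ⟨s, rfl⟩ := Int.isUnit_iff.2 hs
    refine ⟨mk (Equiv.addRight i) (fun _ => s) x, ?_, ?_⟩ <;> ext j <;> fin_cases i <;> fin_cases j <;>
      simp [mka, add_comm]
  have z : ∀ M, P (F hh ⁻¹' A ∩ {X | ∀ o : I, o.1.1 = !c → X o = (!c) ∧ (o.1.1 = (!c) ∧
      cov hh o s(g 0, g ![1, 0])) → o.1.2.2 < M}) = 0 := fun M => by
    have m : Measurable[cylinderEvents {((c, true, M), g)}ᶜ, cylinderEvents {⟨_, he⟩}ᶜ] (F hh) :=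
      measurable_cylinderEvents_iff.2 fun f hf => Fm f fun o k => by
        rintro rfl
        obtain ⟨a, b, ⟨rfl, rfl⟩, d⟩ := k
        exact hf (Subtype.ext d)
    have m2 : MeasurableSet[cylinderEvents {((c, true, M), g)}ᶜ] {X : I → Bool | ∀ o : I, o.1.1 = !c →
        X o = (!c) ∧ (o.1.1 = (!c) ∧ cov hh o s(g 0, g ![1, 0])) → o.1.2.2 < M} := by
      letI : MeasurableSpace (I → Bool) := cylinderEvents {((c, true, M), g)}ᶜ
      refine measurableSet_setOfPred.2 (.forall fun o => measurable_const.imp ((cm o _ _ ?_).imp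
        measurable_const))
      rintro ⟨a, -⟩ rfl
      simp at a
    refine (mul_eq_zero.1 ((indep_cyl ν disjoint_compl_left ((m hA).inter m2)
        (prc bb (mem_singleton _))).symm.trans (measure_mono_null ?_ h))).resolve_right ?_
    · rintro X ⟨⟨a, b⟩, d⟩
      have k : cov hh ((c, true, M), g) s(g 0, g ![1, 0]) := ⟨_, _, ⟨rfl, rfl⟩, rfl⟩
      refine ⟨a, ?_⟩
      cases c
      · exact Bool.eq_false_iff.2 fun f => by
          obtain ⟨o, o1, o2, o3, o4⟩ := (Fe _).1 f
          exact (b o o1 ⟨o2, o1, o3⟩).not_gt (o4 _ rfl d k)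
      · exact (Fe _).2 ⟨_, rfl, d, k, fun w w1 w2 w3 => b w w1 ⟨w2, w1, w3⟩⟩
    · simpa [P1, νa] using (q0 _).1
  have f : wt ν bb (⋃ n, ⋃ l, S (!c, n, 0 + l) (g 0) 1) ≠ ∞ := by
    cases c
    · exact ((wH 0 _).trans_lt ENNReal.ofReal_lt_top).ne
    · refine (((measure_mono (iUnion₂_mono fun n l => ?_)).trans (wW 0 (g 0))).trans_lt
        ENNReal.ofReal_lt_top).ne
      exact fun o ⟨a, u, v, b, d⟩ => ⟨a, u, v, b, fun j => (d j).trans (by norm_num)⟩
  refine measure_mono_null (fun X hX => ?_) (measure_union_null (measure_iUnion_null z) (ae_iff.1 (P4 ν bb f)))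
  refine or_iff_not_imp_right.2 fun k => ?_
  obtain ⟨M, hM⟩ := ((not_not.1 k).image fun o => o.1.2.2).bddAbove
  refine mem_iUnion.2 ⟨M + 1, hX, fun o a ⟨b, _, d⟩ => Nat.lt_succ_of_le (hM ⟨o, ⟨?_, b.trans a.symm⟩, rfl⟩)⟩
  obtain ⟨u, v, d1, d2⟩ := near he d
  exact a ▸ memS (Nat.zero_le _) d1 d2

theorem perc_ae : ∀ᵐ ω ∂μ, ∃ c : (OS univ ω).ConnectedComponent, c.supp.Infinite := by
  classical
  have e : ∀ ω, OS univ ω = O (G 2) ω := fun ω => by simp [OS, O]
  have e2 : {ω | ∃ c : (OS univ ω).ConnectedComponent, c.supp.Infinite} =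
    {ω | ∃ c : (O (G 2) ω).ConnectedComponent, c.supp.Infinite} := Set.ext fun ω => by
      rw [mem_ofPred_eq, e, mem_ofPred_eq]
  change {ω | _} ∈ _
  rw [e2]
  refine (ae_map_iff Fm'.aemeasurable (inf_meas _)).2 ?_
  have a := ae_eventually_notMem (μ := P) (s := fun i => {X | ∃ o ∈ Af hh i (8 * 2 ^ i),
      ∃ o' ∈ Af hh i (8 * 2 ^ i), o ≠ o' ∧ X ∈ pr bb o ∧ X ∈ pr bb o'}) (ne_top_of_le_ne_top
    (D4.mul_left ((4 * 10 ^ 16) ^ 2)).tsum_ofReal_ne_top (ENNReal.tsum_le_tsum fun i => (P2 ν bb _).trans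
      ((pow_le_pow_left' ((measure_mono fun o (k : o ∈ Af hh i (8 * 2 ^ i)) => by
        obtain ⟨a, b, u, v, c, d⟩ := k
        exact a ▸ memS b c d).trans (wW i 0)) 2).trans_eq
        (by
          have := D1 i
          rw [← ENNReal.ofReal_pow (by positivity)]
          congr 1
          field_simp))))
  let T : ℕ → Fin 2 → ℤˣ → Finset I := fun i t τ => (Rec 0 (2 ^ i - 1) (2 ^ i + 1) (2 * 2 ^ i)).image
    fun c => ((true, false, i), mk (Equiv.addRight t) 1 (pt t (c 0) (τ * c 1)))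
  have b := fun t τ => ae_eventually_notMem (μ := P) (s := fun i => {X | ∀ o ∈ T i t τ, X ∉ pr bb o})
    (ne_top_of_le_ne_top (D4.mul_left ((Nat.factorial 12 : ℕ) : ℝ)).tsum_ofReal_ne_top (ENNReal.tsum_le_tsum fun i =>
      (P5 ν bb (T i t τ) (q0 (true, false, i)).2 fun o ho => by
        obtain ⟨c, -, rfl⟩ := Finset.mem_image.1 ho
        exact νa _).trans (ENNReal.ofReal_le_ofReal (show _ ≤ _ * (1 / _) by
          have := D1 i
          rw [Finset.card_image_of_injective _ fun c c' k => by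
            have k1 := congrArg (fun o : I => o.2 0 t) k
            have k2 := congrArg (fun o : I => o.2 0 t.rev) k
            ext j
            fin_cases t <;> simp [mka, pt] at k1 k2 <;> fin_cases j <;> assumption,
            card_Rec (2 ^ i) (2 ^ i) (by simp) (by push_cast; ring), ← mul_pow, q, Nat.cast_pow, Nat.cast_mul,
            Nat.cast_ofNat, show (2 : ℝ) * 2 = 4 by norm_num, mul_div_cancel₀ _ (by positivity), Real.exp_neg,
            mul_one_div, ← inv_div]
          exact inv_anti₀ (by positivity) (Real.pow_div_factorial_le_exp _ (by positivity) 12)))))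
  filter_upwards [a, ae_all_iff.2 fun t => ae_all_iff.2 (b t)] with X a b
  obtain ⟨n, hn⟩ := eventually_atTop.1 (a.and (eventually_all.2 fun t => eventually_all.2 (b t)))
  refine perc (n := n) (fun i hi t τ => ?_) fun i hi o k o' k' x y => by_contra fun z =>
    (hn i hi).1 ⟨o, k, o', k', z, x.trans k.1.symm, y.trans k'.1.symm⟩
  have := (hn i hi).2 t τ
  simp only [mem_ofPred_eq, not_forall, not_not] at this
  obtain ⟨o, ho, x⟩ := this
  obtain ⟨c, hc, rfl⟩ := Finset.mem_image.1 ho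
  rw [mem_Rec] at hc
  exact ⟨c 1, by omega, hc.2.2, _, c 0, x, hc.1.1, by omega, fun a => by fin_cases t <;> simp [mka, pt]⟩

theorem half : ¬ ∀ᵐ ω ∂μ, ∃ c : (OS {v | 0 ≤ v 1} ω).ConnectedComponent, c.supp.Infinite := fun H => by
  classical
  let f : (Σ _ : ℕ, V) → I := fun p => ((false, false, p.1), mk 1 1 p.2)
  let T : ℕ → Finset I := fun n => ((Finset.Ico n (2 * n)).sigma fun j =>
    Rec (1 - hh j) 0 (1 - hh j) 0).image f
  let E : ℕ → I → Set (I → Bool) := fun n o => pr bb o ∩ (⋃ o' ∈ (T n : Set I) \ {o} ∪ Bd hh o, pr bb o')ᶜ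
  have mE : ∀ n o, MeasurableSet (E n o) := fun n o =>
    (prm _ _).inter (MeasurableSet.biUnion (to_countable _) fun _ _ => prm _ _).compl
  have w : ∀ n, ∑ o ∈ T n, ν o {bb o} = .ofReal (∑ j ∈ Finset.Ico n (2 * n), 1 / (4 * ((j : ℝ) + 1))) :=
    fun n => by
      rw [Finset.sum_image fun p _ p' _ k => by
        have k1 := congrArg (fun o : I => (o.1.2.2, o.2 0)) k
        simp only [f, Prod.mk.injEq] at k1
        exact Sigma.ext k1.1 (heq_of_eq (funext fun j => by simpa [mka] using congrFun k1.2 j)),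
        Finset.sum_sigma, ENNReal.ofReal_sum_of_nonneg fun _ _ => by positivity]
      refine Finset.sum_congr rfl fun j _ => ?_
      have := (hh1 j).1
      simp only [νa, f, q, Finset.sum_const, nsmul_eq_mul]
      rw [card_Rec (hh j) (hh j) (by ring) (by ring), ← ENNReal.ofReal_natCast, ← ENNReal.ofReal_mul (Nat.cast_nonneg _)]
      congr 1
      push_cast
      field_simp
  obtain ⟨N, hN⟩ := eventually_atTop.1 (wB.and (eventually_ge_atTop 1))
  have lo : ∀ n ≥ N, .ofReal (1 / 8) / 4 ≤ P (⋃ o ∈ T n, E n o) := fun n hn => by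
    have n1 : (1 : ℝ) ≤ n := by exact_mod_cast (hN n hn).2
    have c : (Finset.Ico n (2 * n)).card = n := by simp; omega
    rw [measure_biUnion_finset (fun o a o' b k => disjoint_left.2 fun X x y => x.2 (mem_biUnion
      (.inl ⟨b, k.symm⟩) y.1)) fun o _ => mE n o]
    refine le_trans ?_ (Finset.sum_le_sum fun o ho => P3 ν bb (by simp [Bd]) ((measure_union_le _ _).trans
      ((add_le_add ((measure_mono sdiff_subset).trans ?_) ?_).trans_eq (b := 1 / 4 + 1 / 2) ?_)))
    · simp only [div_eq_mul_inv, ← Finset.sum_mul, w]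
      refine mul_le_mul_left (ENNReal.ofReal_le_ofReal (le_trans (le_of_eq ?_) (Finset.card_nsmul_le_sum _ _
        (1 / (8 * (n : ℝ))) fun j hj => ?_))) _
      · rw [c, nsmul_eq_mul]
        field_simp
      · have : (j : ℝ) + 1 ≤ 2 * n := by exact_mod_cast (Finset.mem_Ico.1 hj).2
        rw [← div_eq_mul_inv]
        exact one_div_le_one_div_of_le (by positivity) (by linarith)
    · rw [wt_fin, w, ← ENNReal.ofReal_one, ← ENNReal.ofReal_ofNat, ← ENNReal.ofReal_div_of_pos four_pos]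
      refine ENNReal.ofReal_le_ofReal ((Finset.sum_le_card_nsmul _ _ (1 / (4 * (n : ℝ))) fun j hj => ?_).trans_eq ?_)
      · have : (n : ℝ) ≤ j := by exact_mod_cast (Finset.mem_Ico.1 hj).1
        exact one_div_le_one_div_of_le (by positivity) (by linarith)
      · rw [c, nsmul_eq_mul]
        field_simp
    · obtain ⟨p, hp, rfl⟩ := Finset.mem_image.1 ho
      exact (hN _ (hn.trans (Finset.mem_Ico.1 (Finset.mem_sigma.1 hp).1).1)).1 _
    · rw [← ENNReal.toReal_eq_toReal_iff' (by finiteness) (by finiteness), ENNReal.toReal_add (by finiteness)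
        (by finiteness)]
      norm_num
  have m : Monotone fun M => ⋂ n ≥ M, (⋃ o ∈ T n, E n o)ᶜ := fun a b k =>
    biInter_subset_biInter_left fun n (x : b ≤ n) => k.trans x
  refine (ENNReal.sub_lt_self ENNReal.one_ne_top one_ne_zero (b := .ofReal (1 / 8) / 4) (by simp)).not_ge
    (le_trans (measure_univ (μ := P)).ge ((measure_mono_ae ?_).trans (m.measure_iUnion.trans_le
      (iSup_le fun M => ?_))))
  · filter_upwards [ae_of_ae_map Fm'.aemeasurable H] with X hX _
    refine by_contra fun k : X ∉ ⋃ M, ⋂ n ≥ M, (⋃ o ∈ T n, E n o)ᶜ => ?_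
    refine trap (fun M => ?_) hX
    obtain ⟨n, hn⟩ := eventually_atTop.1 (hh2 M)
    simp only [mem_iUnion, mem_iInter, mem_compl_iff, not_exists, not_forall, not_not] at k
    obtain ⟨m, a, o, b, c, d⟩ := k n
    obtain ⟨p, hp, rfl⟩ := Finset.mem_image.1 b
    rw [Finset.mem_sigma, Finset.mem_Ico] at hp
    exact ⟨p.1, p.2, (hn _ (a.trans hp.1.1)).1, hp.2, c, fun o x y => d (mem_biUnion (.inr x)
      (y.trans x.1.symm))⟩
  · refine (measure_mono (biInter_subset_of_mem (le_max_left M N))).trans ?_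
    rw [prob_compl_eq_one_sub (Finset.measurableSet_biUnion _ fun o _ => mE _ o)]
    exact tsub_le_tsub_left (lo _ (le_max_right _ _)) _

end Pool.Agent.H.MP_77ae5d_pr
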